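import Mathlib

set_option autoImplicit false
open Finset Polynomial Pointwise Classical

namespace Pool.Agent.Results.MP_b01501_co.Counter

section defs
variable {G : Type} [Group G]

/-- K is a finite nonempty (H, eps)-invariant set. -/
def Inv (H : Finset G) (ε : ℝ) (K : Finset G) : Prop :=
  K.Nonempty ∧ ∀ h ∈ H, ((symmDiff (K.image (h * ·)) K).card : ℝ) < ε * K.card

def Amenable (G : Type) [Group G] : Prop := ∀ (H : Finset G) (ε : ℝ), 0 < ε → ∃ K, Inv H ε K

/-- Upper Banach density. -/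
noncomputable def dens (A : Set G) : ℝ :=
  sSup {α : ℝ | ∀ (H : Finset G) (ε : ℝ), 0 < ε → ∃ K, Inv H ε K ∧
    α * K.card ≤ (K.filter (· ∈ A)).card}

def Thick (A : Set G) : Prop := ∀ H : Finset G, ∃ x, ∀ h ∈ H, h * x ∈ A

def PwSyndetic (k : ℕ) (A : Set G) : Prop := ∃ F : Finset G, F.card ≤ k ∧ Thick ((F : Set G) * A)

theorem le_dens (A : Set G) (α : ℝ) (h : ∀ (H : Finset G) (ε : ℝ), 0 < ε → ∃ K, Inv H ε K ∧
    α * K.card ≤ (K.filter (· ∈ A)).card) : α ≤ dens A := by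
  refine le_csSup ⟨1, fun β hβ => ?_⟩ h
  obtain ⟨K, hK, h1⟩ := hβ ∅ 1 one_pos
  have h2 : ((K.filter (· ∈ A)).card : ℝ) ≤ K.card := by exact_mod_cast card_filter_le _ _
  have h3 : (0 : ℝ) < K.card := by exact_mod_cast hK.1.card_pos
  nlinarith

end defs

@[ext] structure Aff where
  f : (ZMod 5)[X]
  a : (ZMod 5)ˣ

noncomputable instance : Group Aff where
  mul x y := ⟨x.f + x.a • y.f, x.a * y.a⟩
  one := ⟨0, 1⟩
  inv x := ⟨-(x.a⁻¹ • x.f), x.a⁻¹⟩
  mul_assoc x y z := Aff.ext (show x.f + x.a • y.f + (x.a * y.a) • z.f =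
    x.f + x.a • (y.f + y.a • z.f) by rw [smul_add, mul_smul, add_assoc]) (mul_assoc _ _ _)
  one_mul x := Aff.ext (show 0 + (1 : (ZMod 5)ˣ) • x.f = x.f by simp) (one_mul _)
  mul_one x := Aff.ext (show x.f + x.a • (0 : (ZMod 5)[X]) = x.f by simp) (mul_one _)
  inv_mul_cancel x := Aff.ext (show -(x.a⁻¹ • x.f) + x.a⁻¹ • x.f = 0 by simp) (inv_mul_cancel _)

theorem mul_f (x y : Aff) : (x * y).f = x.f + x.a • y.f := rfl
theorem mul_a (x y : Aff) : (x * y).a = x.a * y.a := rfl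

instance : Fact (Nat.Prime 5) := ⟨by norm_num⟩

theorem folner (H : Finset Aff) (c : (ZMod 5)ˣ) (r : ℕ) : ∃ (n N : ℕ) (K : Finset Aff),
    (∀ ε : ℝ, 0 < ε → Inv H ε K) ∧ K.card = N * 4 ∧ (K.filter (·.a ≠ 1)).card = N * 3 ∧
    ∀ x ∈ K, x.f.natDegree = 2 * n + r ∧ x.f.leadingCoeff = x.a * c := by
  obtain ⟨n, hn⟩ := (H.image fun h => h.f.natDegree).bddAbove
  set m := 2 * (n + 1) + r with hm
  have hH : ∀ h ∈ H, h.f.degree < m := fun h hh => by
    have := hn (mem_coe.mpr (mem_image_of_mem _ hh))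
    exact lt_of_le_of_lt degree_le_natDegree (by exact_mod_cast (by omega))
  have : Finite (degreeLT (ZMod 5) m) := Finite.of_equiv _ (degreeLTEquiv (ZMod 5) m).symm.toEquiv
  have := Fintype.ofFinite (degreeLT (ZMod 5) m)
  let e : degreeLT (ZMod 5) m × (ZMod 5)ˣ → Aff := fun p =>
    ⟨p.1 + (p.2 * c) • (X : (ZMod 5)[X]) ^ m, p.2⟩
  have he : Function.Injective e := by
    rintro ⟨f, a⟩ ⟨g, b⟩ h
    obtain rfl : a = b := congrArg Aff.a h
    have : (f : (ZMod 5)[X]) + _ = g + _ := congrArg Aff.f h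
    rw [Subtype.ext (add_right_cancel this)]
  refine ⟨n + 1, Fintype.card (degreeLT (ZMod 5) m), univ.image e, fun ε hε => ?_, ?_, ?_, ?_⟩
  · have hne : (univ.image e).Nonempty := univ_nonempty.image _
    refine ⟨hne, fun h hh => ?_⟩
    have : (univ.image e).image (h * ·) = univ.image e := by
      refine eq_of_subset_of_card_le ?_ (card_image_of_injective _ (mul_right_injective h)).ge
      intro x hx
      simp only [mem_image, mem_univ, true_and, exists_exists_eq_and] at hx ⊢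
      obtain ⟨⟨f, a⟩, rfl⟩ := hx
      refine ⟨(⟨h.f, mem_degreeLT.mpr (hH h hh)⟩ + h.a • f, h.a * a), Aff.ext ?_ rfl⟩
      simp only [e, mul_f, smul_add, smul_smul, mul_assoc, add_assoc, Submodule.coe_add]
      rfl
    rw [this, symmDiff_self]
    have h3 : (0 : ℝ) < (univ.image e).card := by exact_mod_cast hne.card_pos
    simpa using mul_pos hε h3
  · rw [card_image_of_injective _ he]; simp [ZMod.card_units_eq_totient]; decide
  · rw [filter_image, card_image_of_injective _ he]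
    have : (univ.filter fun p : degreeLT (ZMod 5) m × (ZMod 5)ˣ => (e p).a ≠ 1) =
        univ ×ˢ univ.erase 1 := by ext p; simp [e]
    rw [this, card_product, card_erase_of_mem (mem_univ _)]
    simp [ZMod.card_units_eq_totient]; decide
  · intro x hx
    obtain ⟨⟨f, a⟩, _, rfl⟩ := mem_image.mp hx
    have h1 : ((a * c) • X ^ m : (ZMod 5)[X]) = C ((a * c : (ZMod 5)ˣ) : ZMod 5) * X ^ m := by
      rw [Units.smul_def, smul_eq_C_mul]
    have h2 := degree_C_mul_X_pow m (a * c).ne_zero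
    have h3 : (f : (ZMod 5)[X]).degree < (C ((a * c : (ZMod 5)ˣ) : ZMod 5) * X ^ m).degree := by
      rw [h2]; exact mem_degreeLT.mp f.2
    simp only [e, h1]
    rw [leadingCoeff_add_of_degree_lt h3, natDegree_add_eq_right_of_degree_lt h3,
      natDegree_C_mul_X_pow _ _ (a * c).ne_zero, leadingCoeff_C_mul_X_pow]
    exact ⟨rfl, rfl⟩

theorem result : ∃ (G : Type) (_ : Group G), Amenable G ∧ ∃ A B : Set G, 0 < dens A ∧
    0 < dens B ∧ ¬ PwSyndetic ⌊1 / (dens A * dens B)⌋₊ (A * B⁻¹) := by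
  let A : Set Aff := {x | Even x.f.natDegree ∧ x.f.leadingCoeff = x.a ∧ x.a ≠ 1}
  let B : Set Aff := {x | Odd x.f.natDegree ∧ x.f.leadingCoeff = -x.a}
  have hA : 3 / 4 ≤ dens A := le_dens A _ fun H ε hε => by
    obtain ⟨n, N, K, h1, h2, h3, h4⟩ := folner H 1 0
    refine ⟨K, h1 ε hε, ?_⟩
    refine le_trans ?_ (Nat.cast_le.mpr (card_le_card (s := K.filter (·.a ≠ 1)) fun x hx => by
      simp only [mem_filter] at hx ⊢; simp [A, h4 x hx.1, hx.1, hx.2]))
    rw [h2, h3]; push_cast; linarith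
  have hB : 1 ≤ dens B := le_dens B _ fun H ε hε => by
    obtain ⟨n, N, K, h1, h2, h3, h4⟩ := folner H (-1) 1
    refine ⟨K, h1 ε hε, ?_⟩
    refine le_trans (by simp) (Nat.cast_le.mpr (card_le_card (s := K) fun x hx => by
      simp only [mem_filter]; simp [B, h4 x hx, hx]))
  have key : ∀ x ∈ A * B⁻¹, x.f.leadingCoeff ≠ 0 ∧ x.f.leadingCoeff ≠ 1 := by
    rintro _ ⟨x, ⟨h1, h2, h3⟩, y, hy, rfl⟩
    obtain ⟨h4, h5⟩ : Odd (-(y.a⁻¹ • y.f)).natDegree ∧
      (-(y.a⁻¹ • y.f)).leadingCoeff = -((y.a⁻¹ : (ZMod 5)ˣ) : ZMod 5) := hy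
    simp only [Units.smul_def, natDegree_neg, leadingCoeff_neg, neg_inj, smul_eq_C_mul,
      natDegree_C_mul (Units.ne_zero y.a⁻¹), leadingCoeff_mul, leadingCoeff_C] at h4 h5
    have h6 : y.f.leadingCoeff = 1 := mul_left_cancel₀ (Units.ne_zero y.a⁻¹) (by rw [h5, mul_one])
    have h7 : (x.a • y.f).natDegree = y.f.natDegree := by
      rw [Units.smul_def, smul_eq_C_mul, natDegree_C_mul (Units.ne_zero _)]
    have h8 : (x.a • y.f).leadingCoeff = x.a := by
      rw [Units.smul_def, smul_eq_C_mul, leadingCoeff_mul, leadingCoeff_C, h6, mul_one]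
    have : (x * y).f.leadingCoeff = x.a := by
      rw [mul_f]
      rcases lt_trichotomy x.f.natDegree (x.a • y.f).natDegree with h | h | h
      · rw [leadingCoeff_add_of_degree_lt (degree_lt_degree h), h8]
      · rw [h, h7] at h1; exact absurd h1 (Nat.not_even_iff_odd.mpr h4)
      · rw [leadingCoeff_add_of_degree_lt' (degree_lt_degree h), h2]
    simp only [this]
    exact ⟨Units.ne_zero _, fun e => h3 (Units.ext e)⟩
  refine ⟨Aff, inferInstance, fun H ε hε => ?_, A, B, by linarith, by linarith, ?_⟩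
  · obtain ⟨_, _, K, h1, _⟩ := folner H 1 0
    exact ⟨K, h1 ε hε⟩
  rintro ⟨F, hF, hT⟩
  have h1 : F.card ≤ 1 := by
    refine hF.trans (Nat.lt_succ_iff.mp ((Nat.floor_lt' (by norm_num)).mpr ?_))
    rw [div_lt_iff₀ (by nlinarith)]; push_cast; nlinarith
  obtain ⟨g, hg⟩ := card_le_one_iff_subset_singleton.mp h1
  obtain ⟨x, hx⟩ := hT (univ.image fun a : (ZMod 5)ˣ => g * ⟨0, a⟩)
  have h2 : ∀ a : (ZMod 5)ˣ, (⟨0, a⟩ * x : Aff) ∈ A * B⁻¹ := fun a => by
    obtain ⟨u, hu, v, hv, e⟩ := hx _ (mem_image_of_mem _ (mem_univ a))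
    rw [mem_singleton.mp (hg hu), mul_assoc] at e
    rw [← mul_left_cancel e]; exact hv
  have h3 : ∀ a : (ZMod 5)ˣ, (⟨0, a⟩ * x : Aff).f.leadingCoeff = a * x.f.leadingCoeff := fun a => by
    simp [mul_f, Units.smul_def, smul_eq_C_mul]
  have h4 : x.f.leadingCoeff ≠ 0 := by simpa [h3] using (key _ (h2 1)).1
  exact (key _ (h2 (Units.mk0 _ h4)⁻¹)).2 (by rw [h3]; simp [h4])

end Pool.Agent.Results.MP_b01501_co.Counter
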